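import Pool.Agent.W788.NW.Stm

/-! # Project NW: Duhamel's formula -/

set_option autoImplicit false

namespace Pool.Agent.W103.NW.Duh

open Pool.Agent.W788.NV Pool.Agent.W788.NW Finset

section abstract

variable {R : Type} [NormedRing R] [NormedAlgebra ℝ R] [CompleteSpace R]

/-- the exponential -/
noncomputable def ee (A B : R) (s τ : ℝ) : R := NormedSpace.exp (τ • (A + s • B))

/-- the integrand -/
noncomputable def gg (A B : R) (φ : R →L[ℝ] ℝ) (t s s' τ : ℝ) : ℝ :=
  φ (ee A B s τ * B * ee A B s' (t - τ))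

theorem ee_cont (A B : R) : Continuous (fun p : ℝ × ℝ => ee A B p.1 p.2) := by
  letI : NormedAlgebra ℚ R := NormedAlgebra.restrictScalars ℚ ℝ R
  unfold ee
  refine NormedSpace.exp_continuous.comp ?_
  fun_prop

theorem gg_cont (A B : R) (φ : R →L[ℝ] ℝ) (t s : ℝ) :
    Continuous (fun p : ℝ × ℝ => gg A B φ t s p.1 p.2) := by
  unfold gg
  refine φ.continuous.comp ?_
  have h1 : Continuous (fun p : ℝ × ℝ => ee A B s p.2) :=
    (ee_cont A B).comp (continuous_const.prodMk continuous_snd)
  have h2 : Continuous (fun p : ℝ × ℝ => ee A B p.1 (t - p.2)) :=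
    (ee_cont A B).comp (continuous_fst.prodMk (continuous_const.sub continuous_snd))
  exact (h1.mul continuous_const).mul h2

theorem ee_deriv (A B : R) (φ : R →L[ℝ] ℝ) (t s s' τ : ℝ) :
    HasDerivAt (fun τ => φ (ee A B s τ * ee A B s' (t - τ)))
      ((s - s') * gg A B φ t s s' τ) τ := by
  have h1 : HasDerivAt (fun τ => ee A B s τ) (ee A B s τ * (A + s • B)) τ :=
    hasDerivAt_exp_smul_const (𝕂 := ℝ) (A + s • B) τ
  have h2 : HasDerivAt (fun τ => ee A B s' (t - τ))
      (-((A + s' • B) * ee A B s' (t - τ))) τ := by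
    have h3 : HasDerivAt (fun τ => ee A B s' τ) ((A + s' • B) * ee A B s' (t - τ)) (t - τ) :=
      hasDerivAt_exp_smul_const' (𝕂 := ℝ) (A + s' • B) (t - τ)
    have h4 : HasDerivAt (fun τ : ℝ => t - τ) (-1) τ := by
      simpa using (hasDerivAt_id τ).const_sub t
    have h5 := h3.scomp τ h4
    rw [neg_one_smul] at h5
    exact h5
  have h6 := h1.mul h2
  have h7 := φ.hasFDerivAt.comp_hasDerivAt τ h6
  refine h7.congr_deriv ?_
  unfold gg
  have key : ee A B s τ * (A + s • B) * ee A B s' (t - τ) +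
      ee A B s τ * -((A + s' • B) * ee A B s' (t - τ)) =
      (s - s') • (ee A B s τ * B * ee A B s' (t - τ)) := by
    simp only [mul_add, add_mul, mul_neg, sub_smul, smul_mul_assoc, mul_smul_comm, mul_assoc]
    abel
  change φ (ee A B s τ * (A + s • B) * ee A B s' (t - τ) +
      ee A B s τ * -((A + s' • B) * ee A B s' (t - τ))) = _
  rw [key, map_smul, smul_eq_mul]

theorem diff_eq (A B : R) (φ : R →L[ℝ] ℝ) (t s s' : ℝ) :
    φ (ee A B s t) - φ (ee A B s' t) =
      (s - s') * ∫ τ in (0 : ℝ)..t, gg A B φ t s s' τ := by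
  have hc : Continuous (fun τ => gg A B φ t s s' τ) :=
    (gg_cont A B φ t s).comp (continuous_const.prodMk continuous_id)
  have h := intervalIntegral.integral_eq_sub_of_hasDerivAt (a := 0) (b := t)
    (fun τ _ => ee_deriv A B φ t s s' τ)
    ((continuous_const.mul hc).intervalIntegrable 0 t)
  rw [intervalIntegral.integral_const_mul] at h
  rw [h]
  have e0 : ∀ u, ee A B u 0 = 1 := fun u => by
    unfold ee; rw [zero_smul, NormedSpace.exp_zero]
  simp only [sub_self, sub_zero, e0, mul_one, one_mul]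

theorem main_deriv (A B : R) (φ : R →L[ℝ] ℝ) (t s : ℝ) :
    HasDerivAt (fun s => φ (ee A B s t)) (∫ τ in (0 : ℝ)..t, gg A B φ t s s τ) s := by
  rw [hasDerivAt_iff_tendsto_slope]
  have hcont : Continuous (fun s' => ∫ τ in (0 : ℝ)..t, gg A B φ t s s' τ) :=
    intervalIntegral.continuous_parametric_intervalIntegral_of_continuous'
      (f := fun s' τ => gg A B φ t s s' τ) (gg_cont A B φ t s) 0 t
  have h1 := (hcont.tendsto s).mono_left (nhdsWithin_le_nhds (s := {s}ᶜ))
  refine h1.congr' ?_
  filter_upwards [self_mem_nhdsWithin] with s' hs'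
  have hne : s' - s ≠ 0 := sub_ne_zero.mpr hs'
  rw [slope_def_field]
  have h2 := diff_eq A B φ t s s'
  rw [eq_div_iff hne]
  linarith

end abstract

attribute [local instance] Matrix.linftyOpNormedRing Matrix.linftyOpNormedAlgebra

variable {S ι : Type} [Fintype S] [DecidableEq S] [Fintype ι]

theorem mulVec_gen (r : ι → ℝ) (m : ι → S → S) (F : S → ℝ) :
    (mgen r m).mulVec F = gf r m F := by
  funext x
  simp only [Matrix.mulVec, dotProduct, mgen, gf, Finset.sum_mul]
  rw [Finset.sum_comm]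
  refine Finset.sum_congr rfl fun e _ => ?_
  simp only [mul_assoc]
  rw [← Finset.mul_sum]
  congr 1
  simp [sub_mul, Finset.sum_sub_distrib]

/-- evaluation as a continuous linear map -/
noncomputable def ev (F : S → ℝ) (x : S) : Matrix S S ℝ →L[ℝ] ℝ :=
  LinearMap.toContinuousLinearMap
    { toFun := fun M => (M.mulVec F) x
      map_add' := fun M N => by simp [Matrix.add_mulVec]
      map_smul' := fun c M => by simp [Matrix.smul_mulVec] }

omit [DecidableEq S] in
theorem ev_apply (F : S → ℝ) (x : S) (M : Matrix S S ℝ) : ev F x M = (M.mulVec F) x := rfl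

theorem mgen_add (r ρ : ι → ℝ) (m : ι → S → S) (s : ℝ) :
    mgen (fun e => r e + s * ρ e) m = mgen r m + s • mgen ρ m := by
  ext x y
  simp only [mgen, Matrix.add_apply, Matrix.smul_apply, smul_eq_mul, Finset.mul_sum]
  rw [← Finset.sum_add_distrib]
  refine Finset.sum_congr rfl fun e _ => ?_
  ring

set_option backward.isDefEq.respectTransparency false in
theorem sg_eq (r ρ : ι → ℝ) (m : ι → S → S) (F : S → ℝ) (x : S) (t s : ℝ) :
    sg (fun e => r e + s * ρ e) m t F x = ev F x (ee (mgen r m) (mgen ρ m) s t) := by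
  unfold sg
  rw [mgen_add, ev_apply]
  rfl

set_option backward.isDefEq.respectTransparency false in
theorem int_eq (r ρ : ι → ℝ) (m : ι → S → S) (F : S → ℝ) (x : S) (t s τ : ℝ) :
    sg (fun e => r e + s * ρ e) m τ
        (gf ρ m (sg (fun e => r e + s * ρ e) m (t - τ) F)) x =
      ev F x (ee (mgen r m) (mgen ρ m) s τ * mgen ρ m * ee (mgen r m) (mgen ρ m) s (t - τ)) := by
  rw [sg_eq, ev_apply, ev_apply, ← Matrix.mulVec_mulVec, ← Matrix.mulVec_mulVec]
  have h : gf ρ m (sg (fun e => r e + s * ρ e) m (t - τ) F) =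
      (mgen ρ m).mulVec ((ee (mgen r m) (mgen ρ m) s (t - τ)).mulVec F) := by
    rw [← mulVec_gen]
    congr 1
    funext y
    rw [sg_eq, ev_apply]
  rw [h]

set_option backward.isDefEq.respectTransparency false in
theorem duh_ (_h : MK) : S_DUH := by
  intro S ι _ _ _ r ρ m F x t s
  have h := main_deriv (mgen r m) (mgen ρ m) (ev F x) t s
  have e1 : (fun s => sg (fun e => r e + s * ρ e) m t F x) =
      fun s => ev F x (ee (mgen r m) (mgen ρ m) s t) := funext fun s => sg_eq r ρ m F x t s
  have e2 : (fun τ => sg (fun e => r e + s * ρ e) m τ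
        (gf ρ m (sg (fun e => r e + s * ρ e) m (t - τ) F)) x) =
      fun τ => gg (mgen r m) (mgen ρ m) (ev F x) t s s τ :=
    funext fun τ => int_eq r ρ m F x t s τ
  rw [e1]
  show HasDerivAt _ (∫ τ in (0 : ℝ)..t, (fun τ => sg (fun e => r e + s * ρ e) m τ
        (gf ρ m (sg (fun e => r e + s * ρ e) m (t - τ) F)) x) τ) s
  rw [e2]
  exact h

end Pool.Agent.W103.NW.Duh
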